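import Mathlib
import Pool.Agent.H317.GI.Stm

/-! GI MAL: solvable groups of 3 by 3 matrices are virtually triangularizable. -/

set_option autoImplicit false

namespace Pool.Agent.H111.GI

open Matrix Module Pool.Agent.H317.GR Pool.Agent.H317.GH Pool.Agent.H317.GI

/-- the action on column vectors -/
noncomputable def act {K : Type} [Field K] {G : Type} [Group G] (ρ : G →* GL (Fin 3) K) :
    G →* Module.End K (Fin 3 → K) where
  toFun g := Matrix.toLin' (ρ g).val
  map_one' := by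
    rw [map_one, Units.val_one, Matrix.toLin'_one]
    rfl
  map_mul' g h := by
    rw [map_mul, Units.val_mul, Matrix.toLin'_mul]
    rfl

lemma act_apply {K : Type} [Field K] {G : Type} [Group G] (ρ : G →* GL (Fin 3) K) (g : G)
    (v : Fin 3 → K) : act ρ g v = (ρ g).val *ᵥ v := by
  simp [act]

/-- the action on a quotient -/
noncomputable def quo {K : Type} [Field K] {V : Type} [AddCommGroup V] [Module K V] {G : Type}
    [Group G] (ρ : G →* Module.End K V) (L : Submodule K V) (h : ∀ g, L ≤ L.comap (ρ g)) :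
    G →* Module.End K (V ⧸ L) where
  toFun g := L.mapQ L (ρ g) (h g)
  map_one' := by
    apply LinearMap.ext
    intro x
    obtain ⟨x, rfl⟩ := L.mkQ_surjective x
    simp
  map_mul' g g' := by
    apply LinearMap.ext
    intro x
    obtain ⟨x, rfl⟩ := L.mkQ_surjective x
    simp

lemma quo_mk {K : Type} [Field K] {V : Type} [AddCommGroup V] [Module K V] {G : Type}
    [Group G] (ρ : G →* Module.End K V) (L : Submodule K V) (h : ∀ g, L ≤ L.comap (ρ g)) (g : G)
    (x : V) : quo ρ L h g (L.mkQ x) = L.mkQ (ρ g x) := by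
  simp [quo]

theorem mal : S_LNE → S_MAL := by
  intro hLNE K _ _ G _ hG ρ
  have hV : 0 < finrank K (Fin 3 → K) := by rw [finrank_fin_fun]; norm_num
  obtain ⟨G₁, hG₁, v₀, hv₀, h₁⟩ := hLNE K (Fin 3 → K) G hG hV (act ρ)
  set L : Submodule K (Fin 3 → K) := K ∙ v₀ with hL
  have hst : ∀ g : G₁, L ≤ L.comap ((act ρ).comp G₁.subtype g) := by
    intro g
    rw [hL, Submodule.span_singleton_le_iff_mem, Submodule.mem_comap]
    obtain ⟨c, hc⟩ := h₁ g g.2
    have h2 : ((act ρ).comp G₁.subtype) g v₀ = c • v₀ := hc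
    rw [h2]
    exact Submodule.smul_mem _ _ (Submodule.mem_span_singleton_self v₀)
  have hQ : 0 < finrank K ((Fin 3 → K) ⧸ L) := by
    have h2 := Submodule.finrank_quotient_add_finrank L
    rw [hL, finrank_span_singleton hv₀, finrank_fin_fun] at h2
    rw [hL]
    omega
  obtain ⟨G₂, hG₂, w, hw, h₂⟩ := hLNE K ((Fin 3 → K) ⧸ L) G₁ inferInstance hQ
    (quo ((act ρ).comp G₁.subtype) L hst)
  obtain ⟨v₁, rfl⟩ := L.mkQ_surjective w
  have hv₁ : v₁ ∉ L := by
    intro h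
    apply hw
    rw [Submodule.mkQ_apply, Submodule.Quotient.mk_eq_zero]
    exact h
  obtain ⟨v₂, hv₂⟩ : ∃ v₂ : Fin 3 → K, v₂ ∉ Submodule.span K (Set.range ![v₀, v₁]) := by
    by_contra hcon
    push Not at hcon
    have h3 : Submodule.span K (Set.range ![v₀, v₁]) = ⊤ := eq_top_iff.2 fun x _ => hcon x
    have h4 := finrank_range_le_card (R := K) ![v₀, v₁]
    rw [Set.finrank, h3, finrank_top, finrank_fin_fun, Fintype.card_fin] at h4
    omega
  have hin0 : v₀ ∈ Submodule.span K (Set.range ![v₀, v₁]) :=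
    Submodule.subset_span ⟨0, rfl⟩
  have hin1 : v₁ ∈ Submodule.span K (Set.range ![v₀, v₁]) :=
    Submodule.subset_span ⟨1, rfl⟩
  have hli : LinearIndependent K ![v₀, v₁, v₂] := by
    rw [Fintype.linearIndependent_iff]
    intro c hc
    rw [Fin.sum_univ_three] at hc
    have hc' : c 0 • v₀ + c 1 • v₁ + c 2 • v₂ = 0 := hc
    have e2 : c 2 = 0 := by
      by_contra h
      apply hv₂
      have : v₂ = (c 2)⁻¹ • (-(c 0 • v₀ + c 1 • v₁)) := by
        rw [eq_inv_smul_iff₀ h]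
        exact eq_neg_of_add_eq_zero_right hc'
      rw [this]
      exact Submodule.smul_mem _ _ (Submodule.neg_mem _ (Submodule.add_mem _
        (Submodule.smul_mem _ _ hin0) (Submodule.smul_mem _ _ hin1)))
    rw [e2, zero_smul, add_zero] at hc'
    have e1 : c 1 = 0 := by
      by_contra h
      apply hv₁
      have : v₁ = (c 1)⁻¹ • (-(c 0 • v₀)) := by
        rw [eq_inv_smul_iff₀ h]
        exact eq_neg_of_add_eq_zero_right hc'
      rw [this]
      exact Submodule.smul_mem _ _ (Submodule.neg_mem _ (Submodule.smul_mem _ _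
        (Submodule.mem_span_singleton_self v₀)))
    rw [e1, zero_smul, add_zero] at hc'
    have e0 : c 0 = 0 := (smul_eq_zero.1 hc').resolve_right hv₀
    intro i
    fin_cases i
    · exact e0
    · exact e1
    · exact e2
  let A : Matrix (Fin 3) (Fin 3) K := Matrix.of fun i j => ![v₀, v₁, v₂] j i
  have hAcol : A.col = ![v₀, v₁, v₂] := by
    funext j i
    rfl
  have hA : IsUnit A := by
    rw [← Matrix.linearIndependent_cols_iff_isUnit, hAcol]
    exact hli
  obtain ⟨P, hP⟩ := hA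
  refine ⟨G₂.map G₁.subtype, ?_, P, ?_⟩
  · rw [Subgroup.index_map_subtype]
    exact mul_ne_zero hG₂ hG₁
  have hcol : ∀ j, P.val *ᵥ Pi.single j 1 = ![v₀, v₁, v₂] j := by
    intro j
    rw [hP, Matrix.mulVec_single_one, hAcol]
  have hinv : ∀ j, (P⁻¹).val *ᵥ (![v₀, v₁, v₂] j) = Pi.single j 1 := by
    intro j
    rw [← hcol, Matrix.mulVec_mulVec, ← Units.val_mul, inv_mul_cancel, Units.val_one,
      Matrix.one_mulVec]
  rintro g ⟨g', hg', rfl⟩ i j hij
  have hX : ∀ j, (P⁻¹ * ρ (G₁.subtype g') * P).val.col j =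
      (P⁻¹).val *ᵥ ((ρ (G₁.subtype g')).val *ᵥ (![v₀, v₁, v₂] j)) := by
    intro j
    rw [← Matrix.mulVec_single_one, Units.val_mul, Units.val_mul, ← hcol,
      Matrix.mulVec_mulVec, Matrix.mulVec_mulVec, Matrix.mul_assoc]
  have hXij : (P⁻¹ * ρ (G₁.subtype g') * P).val i j =
      ((P⁻¹).val *ᵥ ((ρ (G₁.subtype g')).val *ᵥ (![v₀, v₁, v₂] j))) i := by
    rw [← hX j]
    rfl
  rw [hXij]
  have hc0 : ∃ c : K, (ρ (G₁.subtype g')).val *ᵥ v₀ = c • v₀ := by
    obtain ⟨c, hc⟩ := h₁ g' g'.2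
    refine ⟨c, ?_⟩
    rw [← act_apply]
    exact hc
  have hc1 : ∃ c d : K, (ρ (G₁.subtype g')).val *ᵥ v₁ = c • v₁ + d • v₀ := by
    obtain ⟨c, hc⟩ := h₂ g' hg'
    rw [quo_mk, ← map_smul, ← sub_eq_zero, ← map_sub, Submodule.mkQ_apply,
      Submodule.Quotient.mk_eq_zero, hL, Submodule.mem_span_singleton] at hc
    obtain ⟨d, hd⟩ := hc
    refine ⟨c, d, ?_⟩
    rw [hd, ← act_apply]
    show _ = c • v₁ + (act ρ (G₁.subtype g') v₁ - c • v₁)
    abel
  have i0 := hinv 0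
  have i1 := hinv 1
  have i0' : (P⁻¹).val *ᵥ v₀ = Pi.single 0 1 := i0
  have i1' : (P⁻¹).val *ᵥ v₁ = Pi.single 1 1 := i1
  obtain ⟨c, hc⟩ := hc0
  obtain ⟨c', d, hd⟩ := hc1
  have hcase : (j = 0 ∧ i ≠ 0) ∨ (j = 1 ∧ i ≠ 0 ∧ i ≠ 1) := by
    have hall : ∀ i j : Fin 3, j < i → (j = 0 ∧ i ≠ 0) ∨ (j = 1 ∧ i ≠ 0 ∧ i ≠ 1) := by decide
    exact hall i j hij
  rcases hcase with ⟨rfl, hi⟩ | ⟨rfl, hi0, hi1⟩
  · show ((P⁻¹).val *ᵥ ((ρ (G₁.subtype g')).val *ᵥ v₀)) i = 0
    rw [hc, Matrix.mulVec_smul, i0']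
    simp [hi]
  · show ((P⁻¹).val *ᵥ ((ρ (G₁.subtype g')).val *ᵥ v₁)) i = 0
    rw [hd, Matrix.mulVec_add, Matrix.mulVec_smul, Matrix.mulVec_smul, i0', i1']
    simp [hi0, hi1]

end Pool.Agent.H111.GI
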